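import Pool.Agent.H345R2.A5.Fin
import Pool.Agent.H370R2.Expl1

/-! The constant and the final form. -/

open Complex Filter Topology Set MeasureTheory
open scoped BigOperators ComplexConjugate

namespace H370.A5

open H295SI H344 H370.AS

/-- `cot(1/√2)/√2` -/
noncomputable def uu : ℝ := Real.cot (1 / Real.sqrt 2) / Real.sqrt 2

/-- the constant in closed form -/
noncomputable def cu (h : ℝ) : ℝ := (1 / 4 + uu / 2 + uu ^ 2 / 2) / h + (1 / 4 + uu / 2 - uu ^ 2 / 2) * h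

lemma RS_zero : RS (Real.sqrt 2) 0 = 1 / 4 + uu / 2 + uu ^ 2 / 2 := by
  have hs : Real.sqrt 2 * Real.sqrt 2 = 2 := Real.mul_self_sqrt (by norm_num)
  have hs0 : 0 < Real.sqrt 2 := by positivity
  have e : Real.sqrt 2 / 2 = 1 / Real.sqrt 2 := by
    rw [div_eq_div_iff (by norm_num) hs0.ne']
    linarith
  have hd := GramAux.den_pos
  have hsin : Real.sin (1 / Real.sqrt 2) ≠ 0 := by
    intro h
    rw [h, mul_zero] at hd
    exact lt_irrefl _ hd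
  have e2 : Real.sin (Real.sqrt 2) = 2 * Real.sin (1 / Real.sqrt 2) * Real.cos (1 / Real.sqrt 2) := by
    rw [← Real.sin_two_mul]
    congr 1
    rw [← e]; ring
  unfold RS uu
  rw [if_pos (by norm_num), abs_zero, sub_zero, mul_zero, Real.cos_zero, mul_one, mul_one, e,
    e2, Real.cot_eq_cos_div_sin]
  have hsc := Real.sin_sq_add_cos_sq (1 / Real.sqrt 2)
  set S := Real.sin (1 / Real.sqrt 2)
  set D := Real.cos (1 / Real.sqrt 2)
  set t := Real.sqrt 2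
  have ht2 : t ^ 2 = 2 := by rw [pow_two]; exact hs
  rw [ht2]
  have h1 : D / S / t = D * t / (2 * S) := by
    rw [div_div, div_eq_div_iff (mul_ne_zero hsin hs0.ne') (mul_ne_zero two_ne_zero hsin)]
    linear_combination (-(D * S)) * hs
  have h2 : 2 * S * D / t = S * D * t := by
    rw [div_eq_iff hs0.ne']
    linear_combination (-(S * D)) * hs
  rw [h1, h2]
  field_simp
  linear_combination (-64 : ℝ) * hsc + (-(32 : ℝ) * D ^ 2) * ht2

lemma cf_eq (lam : ℝ) : cf lam = cu lam := by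
  have h1 := ccR_eq 1 one_pos le_rfl
  rw [mul_one] at h1
  unfold cR H295SI.cc at h1
  have h2 := RS_zero
  unfold cf cR cu
  rw [h2] at h1 ⊢
  have h3 : 2 * ∫ α in (0 : ℝ)..1, α * RS (Real.sqrt 2) α = 1 / 4 + uu / 2 - uu ^ 2 / 2 := by
    have h4 : (1 : ℝ) / 2 + Real.cot (1 / Real.sqrt 2) / Real.sqrt 2 = 1 / 2 + uu := rfl
    rw [h4] at h1
    linarith
  have h5 : 2 * lam * ∫ α in (0 : ℝ)..1, α * RS (Real.sqrt 2) α =
      (2 * ∫ α in (0 : ℝ)..1, α * RS (Real.sqrt 2) α) * lam := by ring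
  rw [h5, h3]

lemma cu_le (h : ℝ) (h0 : 0 < h) (h1 : h ≤ 1) : cu h ≤ 1.0062 / h + 0.3214 * h := by
  have hu1 : uu ≤ 0.827503 := by
    have := H370.Expl.cMTinv_num
    unfold cMTinv at this
    unfold uu
    norm_num at this ⊢
    linarith
  have hu0 : 3 / 4 ≤ uu := by
    have := cMTinv_ge
    unfold cMTinv at this
    unfold uu
    linarith
  have e1 : cu h = (1 / 4 + uu / 2 + uu ^ 2 / 2) * (1 / h - h) + (uu + 1 / 2) * h := by
    unfold cu
    field_simp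
    ring
  have h2 : 0 ≤ 1 / h - h := by
    have : 1 ≤ 1 / h := by rw [le_div_iff₀ h0]; linarith
    linarith
  have h3 : 1 / 4 + uu / 2 + uu ^ 2 / 2 ≤ 1.0062 := by
    norm_num at hu1 ⊢
    nlinarith
  rw [e1]
  have h4 : 1.0062 / h = 1.0062 * (1 / h) := by ring
  rw [h4]
  have h5 := mul_le_mul_of_nonneg_right h3 h2
  have h6 : (uu + 1 / 2) * h ≤ 1.327503 * h := by
    apply mul_le_mul_of_nonneg_right _ h0.le
    norm_num at hu1 ⊢
    linarith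
  norm_num at h5 h6 ⊢
  nlinarith

lemma cu_cont (lam : ℝ) (h0 : 0 < lam) : ContinuousAt cu lam := by
  unfold cu
  exact (continuousAt_const.div continuousAt_id h0.ne').add (continuousAt_const.mul continuousAt_id)

/-- the three inequalities at bandwidth `lam` in the window `(A, B]` -/
def Cn (lam r0 ε A B : ℝ) : Prop :=
  (3 - 2 * cu lam - ε) * (NN riemannZeta A B : ℝ) ≤
      PQ riemannZeta (Qord riemannZeta (1 / (3 * lam))) A B ∧
  ((5 - 3 * cu lam) / 2 - ε) * (NN riemannZeta A B : ℝ) ≤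
      PQ riemannZeta (Qord riemannZeta (1 / (6 * lam))) A B ∧
  (1 - (cu lam - 1) / KK r0 ^ 2 - ε) * (NN riemannZeta A B : ℝ) ≤
      PQ riemannZeta (Qb riemannZeta r0 lam) A B

lemma Qord_mono {F : ℂ → ℂ} {r r' : ℝ} (h : r' ≤ r) {s : ℂ} (hs : 1 ≤ s.im) (hq : Qord F r s) :
    Qord F r' s := by
  obtain ⟨h1, h2, h3⟩ := hq
  refine ⟨h1, h2, fun s' a1 a2 a3 a4 => lt_of_le_of_lt ?_ (h3 s' a1 a2 a3 a4)⟩
  have hl : 0 ≤ Real.log s.im := Real.log_nonneg hs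
  have := Real.pi_pos
  gcongr

lemma Qb_mono {F : ℂ → ℂ} {r x lam : ℝ} (hr : 0 ≤ r) (hx : 0 < x) (h : x ≤ lam) {s : ℂ}
    (hs : 1 < s.im) (hq : Qb F r x s) : Qb F r lam s := by
  obtain ⟨h1, h2, h3⟩ := hq
  have hl : 0 < Real.log s.im := Real.log_pos hs
  have hpi := Real.pi_pos
  refine ⟨h1, h2, fun s' a1 a2 a3 a4 a5 => lt_of_le_of_lt ?_ (h3 s' a1 a2 a3 a4 (a5.trans ?_))⟩
  · gcongr
  · gcongr

theorem final (r0 : ℝ) (hr00 : 0 ≤ r0) (hr01 : r0 ≤ 1 / 3) (η0 lam ε : ℝ) (hη0 : 0 < η0)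
    (hη1 : η0 < 1) (hlam : 0 < lam) (hgap : lam ≤ (1 + η0) / 2) (hgap2 : lam ≤ 8 * η0 / 3)
    (hε : 0 < ε) : ∃ δ : ℝ, 0 < δ ∧ ∃ T0 : ℝ, 10 ≤ T0 ∧ ∀ T : ℝ, T0 ≤ T → ∀ H : ℝ,
      T ^ η0 ≤ H → H ≤ T / 8 →
      volume {t : ℝ | t ∈ Set.Icc T (2 * T) ∧ ¬ Cn lam r0 ε t (t + H)} ≤
        ENNReal.ofReal (T ^ (1 - δ)) := by
  have hc := cu_cont lam hlam
  obtain ⟨hK1, -⟩ := K_facts hr00 hr01
  have hK0 : 0 < KK r0 ^ 2 := lt_of_lt_of_le (by norm_num) hK1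
  have h1 : ∀ᶠ x : ℝ in 𝓝[<] lam, (0 < x ∧ x < lam) ∧ cu x < cu lam + ε / 8 := by
    have e1 : ∀ᶠ x : ℝ in 𝓝[<] lam, 0 < x := nhdsWithin_le_nhds (lt_mem_nhds hlam)
    have e2 : ∀ᶠ x : ℝ in 𝓝[<] lam, x < lam := self_mem_nhdsWithin
    have e3 : ∀ᶠ x : ℝ in 𝓝[<] lam, cu x < cu lam + ε / 8 :=
      nhdsWithin_le_nhds (hc.eventually (gt_mem_nhds (by linarith)))
    exact (e1.and e2).and e3
  obtain ⟨x, ⟨hx0, hx1⟩, hx2⟩ := h1.exists
  obtain ⟨δ, hδ, T0, hT0, h⟩ := almost_strict good_zeta bz_zeta r0 hr00 hr01 η0 x (ε / 2) hη0 hη1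
    hx0 (by linarith) (by linarith) (by linarith)
  refine ⟨δ, hδ, T0, hT0, fun T hT H hH1 hH2 => (measure_mono ?_).trans (h T hT H hH1 hH2)⟩
  rintro t ⟨ht1, ht2⟩
  refine ⟨ht1, fun hcon => ht2 ?_⟩
  obtain ⟨h3, h4, h5⟩ := hcon
  rw [cf_eq] at h3 h4 h5
  have hN0 : (0 : ℝ) ≤ NN riemannZeta t (t + H) := Nat.cast_nonneg _
  have ht : 1 ≤ t := by linarith [ht1.1]
  have hmono : ∀ Q Q' : ℂ → Prop, (∀ s : ℂ, 1 < s.im → Q s → Q' s) →
      (PQ riemannZeta Q t (t + H) : ℝ) ≤ PQ riemannZeta Q' t (t + H) := by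
    intro Q Q' hQ
    have : PQ riemannZeta Q t (t + H) ≤ PQ riemannZeta Q' t (t + H) := by
      unfold PQ
      refine Set.ncard_le_ncard ?_ ((zset_finite good_zeta t (t + H) ht).subset fun s hs => hs.1)
      rintro s ⟨h5, h6⟩
      exact ⟨h5, hQ s (by linarith [h5.2.2.1]) h6⟩
    exact_mod_cast this
  have hd : ∀ k : ℝ, 0 < k → 1 / (k * lam) ≤ 1 / k / x := by
    intro k hk
    rw [div_div]
    apply one_div_le_one_div_of_le (by positivity)
    nlinarith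
  refine ⟨?_, ?_, ?_⟩
  · exact ((mul_le_mul_of_nonneg_right (by linarith) hN0).trans h3).trans
      (hmono _ _ fun s hs hq => Qord_mono (hd 3 (by norm_num)) hs.le hq)
  · exact ((mul_le_mul_of_nonneg_right (by linarith) hN0).trans h4).trans
      (hmono _ _ fun s hs hq => Qord_mono (hd 6 (by norm_num)) hs.le hq)
  · refine ((mul_le_mul_of_nonneg_right ?_ hN0).trans h5).trans
      (hmono _ _ fun s hs hq => Qb_mono hr00 hx0 hx1.le hs hq)
    have h6 : (cu x - 1) / KK r0 ^ 2 ≤ (cu lam - 1) / KK r0 ^ 2 + ε / 2 := by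
      have e1 : (cu lam - 1) / KK r0 ^ 2 + ε / 2 = (cu lam - 1 + ε / 2 * KK r0 ^ 2) / KK r0 ^ 2 := by
        rw [add_div _ (ε / 2 * KK r0 ^ 2), mul_div_assoc (ε / 2), div_self hK0.ne', mul_one]
      rw [e1]
      apply div_le_div_of_nonneg_right _ hK0.le
      have : ε / 2 * 0.678 ≤ ε / 2 * KK r0 ^ 2 := mul_le_mul_of_nonneg_left hK1 (by positivity)
      norm_num at this
      linarith
    linarith

end H370.A5
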