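import Pool.Agent.H345R2.A5.Loc
import Pool.Agent.H345R2.AS.Fin

/-! Isolated ordinates in almost all short intervals: the measure of the exceptional set. -/

open Complex Filter Topology Set MeasureTheory
open scoped BigOperators ComplexConjugate

namespace H370.A5

open H295SI H344 H370.AS

theorem almost_strict {F : ℂ → ℂ} (hF : GoodL F) (hB : BZ F) (r0 : ℝ) (hr00 : 0 ≤ r0)
    (hr01 : r0 ≤ 1 / 3) (η0 lam ε : ℝ) (hη0 : 0 < η0)
    (hη1 : η0 < 1) (hlam : 0 < lam) (hgap : 2 * lam < 1 + η0) (hgap2 : 3 * lam < 8 * η0)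
    (hε : 0 < ε) : ∃ δ : ℝ, 0 < δ ∧ ∃ T0 : ℝ, 10 ≤ T0 ∧ ∀ T : ℝ, T0 ≤ T → ∀ H : ℝ,
      T ^ η0 ≤ H → H ≤ T / 8 →
      volume {t : ℝ | t ∈ Set.Icc T (2 * T) ∧ ¬ Con F lam r0 ε t (t + H)} ≤
        ENNReal.ofReal (T ^ (1 - δ)) := by
  have hlam1 : lam ≤ 1 := by linarith
  obtain ⟨a, ha, hmain⟩ := loc_main hF lam r0 hlam hlam1 hr00 hr01
  have hR := H793SI.convS (Real.sqrt 2) (by positivity) le_rfl
  set R := RS (Real.sqrt 2) with hRdef
  obtain ⟨κ, hκ, hexc⟩ := exc_set hR η0 lam hη0 hη1 hlam hgap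
  obtain ⟨T1, hT1, hexc⟩ := hexc κ hκ le_rfl
  set r : ℝ := (3 / 8 * lam + η0) / 2 with hr
  have hr0 : 0 < r := by positivity
  have hr1 : r < 1 := by rw [hr]; linarith
  have hrgap : 3 / 8 * lam < r := by rw [hr]; linarith
  have hrη : r < η0 := by rw [hr]; linarith
  obtain ⟨θ, hθ0, hθ1, T2, hT2, hm⟩ := hmain r (κ / 2) ε hr0 hr1 hrgap (by positivity) hε
  obtain ⟨δ1, hδ1, T3, hBZ⟩ := hB
  set δ : ℝ := min κ δ1 / 2 with hδ
  have hδ0 : 0 < δ := by rw [hδ]; have := lt_min hκ hδ1; positivity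
  have hδκ : 2 * δ ≤ κ := by rw [hδ]; have := min_le_left κ δ1; linarith
  have hδδ : 2 * δ ≤ δ1 := by rw [hδ]; have := min_le_right κ δ1; linarith
  -- eventual facts
  have ev1 : ∀ᶠ T : ℝ in atTop, (2 * T) ^ r ≤ T ^ η0 := by
    have h1 : ∀ᶠ T : ℝ in atTop, (2 : ℝ) ^ r ≤ T ^ (η0 - r) :=
      (tendsto_rpow_atTop (by linarith)).eventually_ge_atTop _
    filter_upwards [h1, eventually_gt_atTop 0] with T h1 h2
    calc (2 * T) ^ r = 2 ^ r * T ^ r := Real.mul_rpow (by norm_num) h2.le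
      _ ≤ T ^ (η0 - r) * T ^ r := by gcongr
      _ = T ^ η0 := by rw [← Real.rpow_add h2]; congr 1; ring
  have ev2 : ∀ᶠ T : ℝ in atTop, (lam + κ / 2) * Real.log 2 / (κ / 2) ≤ Real.log T :=
    Real.tendsto_log_atTop.eventually_ge_atTop _
  have ev3 : ∀ᶠ T : ℝ in atTop,
      Real.sqrt 2 * Real.exp (-((θ / 4) ^ 2 * T ^ (2 * κ)) / 4) ≤ θ / (1 + θ) := by
    have h1 : Tendsto (fun T : ℝ => Real.sqrt 2 * Real.exp (-((θ / 4) ^ 2 * T ^ (2 * κ)) / 4))
        atTop (𝓝 (Real.sqrt 2 * 0)) := by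
      apply Tendsto.const_mul
      apply Real.tendsto_exp_atBot.comp
      have h2 : Tendsto (fun T : ℝ => (θ / 4) ^ 2 / 4 * T ^ (2 * κ)) atTop atTop :=
        (tendsto_rpow_atTop (by positivity)).const_mul_atTop (by positivity)
      refine (tendsto_neg_atTop_atBot.comp h2).congr fun T => ?_
      simp only [Function.comp]
      ring
    rw [mul_zero] at h1
    exact h1.eventually (ge_mem_nhds (by positivity))
  have ev4 : ∀ᶠ T : ℝ in atTop, 3 ≤ T ^ δ := (tendsto_rpow_atTop hδ0).eventually_ge_atTop _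
  have ev5 : ∀ᶠ T : ℝ in atTop, 2 * Real.log 2 ≤ Real.log T :=
    Real.tendsto_log_atTop.eventually_ge_atTop _
  obtain ⟨T4, hT4⟩ := ((((ev1.and ev2).and ev3).and ev4).and ev5).exists_forall_of_atTop
  refine ⟨δ, hδ0, max (max 100 T1) (max (2 * T2) (max T3 T4)),
    le_trans (by norm_num) ((le_max_left _ _).trans (le_max_left _ _)),
    fun T hT H hH1 hH2 => ?_⟩
  have hT100 : 100 ≤ T := ((le_max_left _ _).trans (le_max_left _ _)).trans hT
  have hTT1 : T1 ≤ T := ((le_max_right _ _).trans (le_max_left _ _)).trans hT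
  have hTT2 : 2 * T2 ≤ T := ((le_max_left _ _).trans (le_max_right _ _)).trans hT
  have hTT3 : T3 ≤ T := ((le_max_left _ _).trans ((le_max_right _ _).trans
    (le_max_right _ _))).trans hT
  obtain ⟨⟨⟨⟨e1, e2⟩, e3⟩, e4⟩, e5⟩ := hT4 T (((le_max_right _ _).trans ((le_max_right _ _).trans
    (le_max_right _ _))).trans hT)
  have hTpos : 0 < T := by linarith
  have hHpos : 0 < H := lt_of_lt_of_le (Real.rpow_pos_of_pos hTpos _) hH1
  set X : ℕ := ⌊T ^ (lam + κ)⌋₊ with hX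
  set σ : ℝ := H * T ^ (-κ) with hσ
  have hTκ : 0 < T ^ (-κ) := Real.rpow_pos_of_pos hTpos _
  have hσ0 : 0 < σ := by positivity
  set w : ℝ := θ / 4 * H with hw
  have hw0 : 0 ≤ w := by positivity
  have hw2 : w ≤ H / 2 := by rw [hw]; nlinarith
  have hmass : Real.sqrt 2 * Real.exp (-w ^ 2 / (4 * σ ^ 2)) ≤ θ / (1 + θ) := by
    refine le_trans (le_of_eq ?_) e3
    congr 2
    have h1 : T ^ (2 * κ) * (T ^ (-κ)) ^ 2 = 1 := by
      rw [← Real.rpow_natCast, ← Real.rpow_mul hTpos.le, ← Real.rpow_add hTpos]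
      have : 2 * κ + -κ * ((2 : ℕ) : ℝ) = 0 := by push_cast; ring
      rw [this, Real.rpow_zero]
    rw [hw, hσ, div_eq_div_iff (by positivity) (by norm_num)]
    have h2 : ((θ / 4) ^ 2 * T ^ (2 * κ)) * (4 * (H * T ^ (-κ)) ^ 2) =
        (θ / 4) ^ 2 * 4 * H ^ 2 * (T ^ (2 * κ) * (T ^ (-κ)) ^ 2) := by ring
    linear_combination h2 + (θ / 4) ^ 2 * 4 * H ^ 2 * h1
  have hlogT : 0 < Real.log T := Real.log_pos (by linarith)
  set E1 : ℝ → Set ℝ := fun Tb => {t : ℝ | t ∈ Set.Icc T (2 * T) ∧ H ≤ ∫ x in (t - w)..(t + H + w),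
        QE R a (lam * Real.log Tb) X σ x} with hE1
  set E3 : Set ℝ := {t : ℝ | t ∈ Set.Icc T (2 * T) ∧ ∃ s : ℂ, F s = 0 ∧ 11 / 16 < s.re ∧
    s.re < 1 ∧ (|s.im - t| ≤ 3 * Real.log T ∨ |s.im - (t + H)| ≤ 3 * Real.log T)} with hE3
  have key : ∀ t : ℝ, t ∈ Set.Icc T (2 * T) → t ∉ E3 → ∀ Tb : ℝ, T / 2 ≤ Tb → Tb ≤ 2 * T →
      Tb + 1 ≤ t → t + H ≤ 2 * Tb - 1 → t ∉ E1 Tb →
      Con F lam r0 ε t (t + H) := by
    intro t ht hE3t Tb hTb1 hTb2 hTb3 hTb4 hE1t
    have hTb0 : 0 < Tb := by linarith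
    have hlogb : Real.log Tb ≤ Real.log T + Real.log 2 := by
      rw [← Real.log_mul hTpos.ne' (by norm_num)]
      exact Real.log_le_log hTb0 (by linarith)
    have hadd : t + H - t = H := by ring
    refine hm Tb (by linarith) t (t + H) hTb3 hTb4 ?_ ?_ σ w X hσ0 hw0 ?_ hmass ?_ ?_
    · rw [hadd]
      calc Tb ^ r ≤ (2 * T) ^ r := Real.rpow_le_rpow hTb0.le hTb2 hr0.le
        _ ≤ T ^ η0 := e1
        _ ≤ H := hH1
    · intro s hs hor
      by_contra hre
      push Not at hre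
      apply hE3t
      obtain ⟨h1, h2, h3, h4, h5⟩ := hs
      refine ⟨ht, s, h5, hre, h2, ?_⟩
      rcases hor with hor | hor
      · left
        rw [abs_le]
        constructor
        · linarith
        · linarith
      · right
        rw [abs_le]
        constructor
        · linarith
        · linarith
    · rw [hadd]
    · have h1 : T ^ (lam + κ) ≤ (X : ℝ) + 1 := (Nat.lt_floor_add_one _).le
      have h2 : (lam + κ) * Real.log T ≤ Real.log (X + 1) := by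
        rw [← Real.log_rpow hTpos]
        exact Real.log_le_log (Real.rpow_pos_of_pos hTpos _) h1
      refine le_trans ?_ h2
      rw [div_le_iff₀ (by positivity)] at e2
      calc (lam + κ / 2) * Real.log Tb ≤ (lam + κ / 2) * (Real.log T + Real.log 2) := by gcongr
        _ = (lam + κ / 2) * Real.log T + (lam + κ / 2) * Real.log 2 := by ring
        _ ≤ (lam + κ / 2) * Real.log T + Real.log T * (κ / 2) := by linarith
        _ = (lam + κ) * Real.log T := by ring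
    · rw [hadd]
      by_contra hcon
      push Not at hcon
      exact hE1t ⟨ht, hcon.le⟩
  have hsub : {t : ℝ | t ∈ Set.Icc T (2 * T) ∧ ¬ Con F lam r0 ε t (t + H)} ⊆
      (E1 (9 / 10 * T) ∪ E1 (27 / 20 * T)) ∪ E3 := by
    intro t ht
    obtain ⟨ht1, ht2⟩ := ht
    by_contra hcon
    simp only [Set.mem_union, not_or] at hcon
    obtain ⟨⟨h1, h2⟩, h3⟩ := hcon
    apply ht2
    rcases le_or_gt t (3 / 2 * T) with h4 | h4
    · exact key t ht1 h3 (9 / 10 * T) (by linarith) (by linarith) (by linarith [ht1.1])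
        (by linarith) h1
    · exact key t ht1 h3 (27 / 20 * T) (by linarith) (by linarith) (by linarith)
        (by linarith [ht1.2]) h2
  have hm1 : ∀ Tb : ℝ, volume (E1 Tb) ≤ ENNReal.ofReal (T ^ (1 - κ)) := fun Tb =>
    hexc T hTT1 H hH1 (by linarith) w hw0 hw2 a ha (lam * Real.log Tb)
  have hm3 : volume E3 ≤ ENNReal.ofReal (T ^ (1 - δ1)) := hBZ T hTT3 H hHpos.le (by linarith)
  have hp : ∀ x : ℝ, 2 * δ ≤ x → T ^ (1 - x) ≤ T ^ (1 - 2 * δ) := fun x hx =>
    Real.rpow_le_rpow_of_exponent_le (by linarith) (by linarith)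
  calc _ ≤ volume ((E1 (9 / 10 * T) ∪ E1 (27 / 20 * T)) ∪ E3) := measure_mono hsub
    _ ≤ (volume (E1 (9 / 10 * T)) + volume (E1 (27 / 20 * T))) + volume E3 :=
        (measure_union_le _ _).trans (add_le_add (measure_union_le _ _) le_rfl)
    _ ≤ (ENNReal.ofReal (T ^ (1 - κ)) + ENNReal.ofReal (T ^ (1 - κ))) +
        ENNReal.ofReal (T ^ (1 - δ1)) := add_le_add (add_le_add (hm1 _) (hm1 _)) hm3
    _ = ENNReal.ofReal (T ^ (1 - κ) + T ^ (1 - κ) + T ^ (1 - δ1)) := by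
        rw [ENNReal.ofReal_add (by positivity) (by positivity),
          ENNReal.ofReal_add (by positivity) (by positivity)]
    _ ≤ ENNReal.ofReal (T ^ (1 - δ)) := by
        apply ENNReal.ofReal_le_ofReal
        have h1 := hp κ hδκ
        have h2 := hp δ1 hδδ
        have h3 : T ^ (1 - δ) = T ^ δ * T ^ (1 - 2 * δ) := by
          rw [← Real.rpow_add hTpos]; congr 1; ring
        have h4 : 0 < T ^ (1 - 2 * δ) := Real.rpow_pos_of_pos hTpos _
        rw [h3]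
        nlinarith

end H370.A5
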