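import Pool.Agent.H344R2.Scale
import Pool.Agent.H345R2.AS.Main

/-! Isolated ordinates in almost all short intervals: the local inequality. -/

open Complex Filter Topology Set MeasureTheory
open scoped BigOperators ComplexConjugate

namespace H370.A5

open H295SI H344

lemma gS_eq (x : ℝ) : gS (Real.sqrt 2) x = g0 x := by
  unfold gS g0
  have hs : Real.sqrt 2 * Real.sqrt 2 = 2 := Real.mul_self_sqrt (by norm_num)
  have hs0 : 0 < Real.sqrt 2 := by positivity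
  have e : Real.sqrt 2 / 2 = 1 / Real.sqrt 2 := by
    rw [div_eq_div_iff (by norm_num) hs0.ne']
    linarith
  rw [e]
  have hd := GramAux.den_pos
  have hsin : Real.sin (1 / Real.sqrt 2) ≠ 0 := by
    intro h
    rw [h, mul_zero] at hd
    exact lt_irrefl _ hd
  rw [div_eq_div_iff (mul_ne_zero (by norm_num) hsin) (mul_ne_zero hs0.ne' hsin)]
  linear_combination (Real.cos (Real.sqrt 2 * x) * Real.sin (1 / Real.sqrt 2)) * hs

lemma QQG_eq (F : ℂ → ℂ) (Λ U1 U2 : ℝ) : QQG (gS (Real.sqrt 2)) F Λ U1 U2 = QQ F Λ U1 U2 := by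
  unfold QQG QQ phiG phi kapG kap
  simp only [gS_eq]

/-- the constant for the fixed window at bandwidth `lam` -/
noncomputable def cf (lam : ℝ) : ℝ := cR (RS (Real.sqrt 2)) lam

lemma cf_nonneg (lam : ℝ) (h0 : 0 < lam) : 0 ≤ cf lam := by
  have hR := H793SI.convS (Real.sqrt 2) (by positivity) le_rfl
  have h2 : 0 ≤ ∫ α in (0 : ℝ)..1, α * RS (Real.sqrt 2) α :=
    intervalIntegral.integral_nonneg (by norm_num) fun u hu => mul_nonneg hu.1 (hR.nonneg u)
  have h3 := hR.nonneg 0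
  unfold cf cR
  positivity

/-- isolated zeros in a window, general form -/
theorem iso_gen {F : ℂ → ℂ} (hF : GoodL F) : ∃ C : ℝ, 0 < C ∧ ∀ T : ℝ, 10 ≤ T →
    ∀ A B : ℝ, T + 1 ≤ A → A ≤ B → B ≤ 2 * T - 1 → ∀ ρ h : ℝ, ρ ≤ 1 → ∀ Q : ℂ → Prop,
      (∀ x : ℝ, T < x → mult F (1 / 2 + I * x) = 1 →
        (∀ s' : ℂ, F s' = 0 → 0 < s'.re → s'.re < 1 → s' ≠ (1 / 2 + I * x : ℂ) →
          |s'.im - x| ≤ ρ → h < |s'.re - 1 / 2|) → Q (1 / 2 + I * x)) →
      ((SI F A B ρ h).card : ℝ) ≤ PQ F Q A B + C * Real.log T := by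
  classical
  obtain ⟨C0, hC0, hz⟩ := zcount hF
  refine ⟨4 * C0, by positivity, fun T hT A B hA hAB hB ρ h hρ Q hQ => ?_⟩
  have hlog : 0 < Real.log T := Real.log_pos (by linarith)
  set S := SI F A B ρ h with hS
  have hSSF : S ⊆ SF F A B := Finset.filter_subset _ _
  have hU : 1 ≤ A := by linarith
  set A1 := S.filter (fun x => A + 1 < x ∧ x < B - 1) with hA1
  have hsub : S ⊆ A1 ∪ (SF F A (A + 2) ∪ SF F (B - 2) B) := by
    intro x hx
    rw [Finset.mem_union, Finset.mem_union]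
    have hxb := SF_mem hF hU (hSSF hx)
    by_cases h1 : A + 1 < x
    · by_cases h2 : x < B - 1
      · exact Or.inl (Finset.mem_filter.mpr ⟨hx, h1, h2⟩)
      · right; right
        exact SF_mono hF hU (by linarith) (hSSF hx) (by linarith) hxb.2
    · right; left
      exact SF_mono hF hU hU (hSSF hx) hxb.1 (by linarith)
  have hc1 : A1.card ≤ PQ F Q A B := by
    unfold PQ
    have himg : ((A1.image (fun x : ℝ => (1 / 2 + I * x : ℂ)) : Finset ℂ) : Set ℂ) ⊆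
        {s : ℂ | s ∈ zset F A B ∧ Q s} := by
      intro s hs
      rw [Finset.mem_coe, Finset.mem_image] at hs
      obtain ⟨x, hx, rfl⟩ := hs
      rw [hA1, Finset.mem_filter] at hx
      obtain ⟨hx1, hx2, hx3⟩ := hx
      have h1 := mem_SF.mp (hSSF hx1)
      have h2 := (mem_Zf hF hU).mp h1.1
      refine ⟨h2, hQ x (by linarith) h1.2 ?_⟩
      intro s' hs0 hs1 hs2 hne hd
      rw [hS, SI, Finset.mem_filter] at hx1
      have h3 := abs_le.mp (hd.trans hρ)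
      exact hx1.2 s' ((mem_Zf hF hU).mpr ⟨hs1, hs2, by linarith [h3.1],
        by linarith [h3.2], hs0⟩) hne hd
    have hinj : Function.Injective (fun x : ℝ => (1 / 2 + I * x : ℂ)) := by
      intro x y hxy
      have := congrArg Complex.im hxy
      simpa using this
    rw [← Finset.card_image_of_injective A1 hinj, ← Set.ncard_coe_finset]
    refine Set.ncard_le_ncard himg ?_
    exact (zset_finite hF A B hU).subset fun s hs => hs.1
  have hc2 : ((SF F A (A + 2)).card : ℝ) ≤ 2 * C0 * Real.log T := by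
    rw [← Ns_card hF hU]
    have h1 := Ns_le_NN hF (b := A + 2) hU
    have h2 := hz (A + 1) (by linarith)
    rw [show A + 1 - 1 = A by ring, show A + 1 + 1 = A + 2 by ring] at h2
    have h3 : (Ns F A (A + 2) : ℝ) ≤ NN F A (A + 2) := by exact_mod_cast h1
    have h4 : Real.log (A + 1) ≤ 2 * Real.log T := by
      rw [← Real.log_rpow (by linarith)]
      apply Real.log_le_log (by linarith)
      norm_num
      nlinarith
    nlinarith
  have hc3 : ((SF F (B - 2) B).card : ℝ) ≤ 2 * C0 * Real.log T := by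
    have hU3 : 1 ≤ B - 2 := by linarith
    rw [← Ns_card hF hU3]
    have h1 := Ns_le_NN hF (b := B) hU3
    have h2 := hz (B - 1) (by linarith)
    rw [show B - 1 - 1 = B - 2 by ring, show B - 1 + 1 = B by ring] at h2
    have h3 : (Ns F (B - 2) B : ℝ) ≤ NN F (B - 2) B := by exact_mod_cast h1
    have h4 : Real.log (B - 1) ≤ 2 * Real.log T := by
      rw [← Real.log_rpow (by linarith)]
      apply Real.log_le_log (by linarith)
      norm_num
      nlinarith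
    nlinarith
  have h5 : S.card ≤ A1.card + ((SF F A (A + 2)).card + (SF F (B - 2) B).card) :=
    (Finset.card_le_card hsub).trans ((Finset.card_union_le _ _).trans
      (Nat.add_le_add_left (Finset.card_union_le _ _) _))
  have h6 : (S.card : ℝ) ≤ (A1.card : ℝ) + ((SF F A (A + 2)).card + (SF F (B - 2) B).card) := by
    exact_mod_cast h5
  have h7 : (A1.card : ℝ) ≤ PQ F Q A B := by exact_mod_cast hc1
  linarith

lemma rad_le {T x r lam : ℝ} (hT : 10 ≤ T) (hx : T < x) (hr : 0 ≤ r) (hlam : 0 < lam) :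
    r / (lam * Real.log x) ≤ r / (lam * Real.log T) := by
  have hlog : 0 < Real.log T := Real.log_pos (by linarith)
  have hlogx : Real.log T ≤ Real.log x := Real.log_le_log (by linarith) hx.le
  apply div_le_div_of_nonneg_left hr (by positivity)
  exact mul_le_mul_of_nonneg_left hlogx hlam.le

/-- isolation of the ordinate for zeros in a window -/
theorem iso_win {F : ℂ → ℂ} (hF : GoodL F) : ∃ C : ℝ, 0 < C ∧ ∀ T : ℝ, 10 ≤ T →
    ∀ A B : ℝ, T + 1 ≤ A → A ≤ B → B ≤ 2 * T - 1 → ∀ r lam : ℝ, 0 ≤ r → 0 < lam →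
      2 * Real.pi * r / (lam * Real.log T) ≤ 1 →
      ((SI F A B (2 * Real.pi * r / (lam * Real.log T)) (1 / 2)).card : ℝ) ≤
        PQ F (Qord F (r / lam)) A B + C * Real.log T := by
  obtain ⟨C, hC, h⟩ := iso_gen hF
  refine ⟨C, hC, fun T hT A B hA hAB hB r lam hr hlam hρ => ?_⟩
  refine h T hT A B hA hAB hB _ _ hρ _ fun x hx hm hs => ?_
  have him : (1 / 2 + I * (x : ℂ)).im = x := by simp
  refine ⟨by simp, hm, fun s' hs0 hs1 hs2 hne => ?_⟩
  rw [him]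
  by_contra hcon
  push Not at hcon
  have hpi := Real.pi_pos
  have h1 := rad_le (r := 2 * Real.pi * r) (lam := lam) hT hx (by positivity) hlam
  have e1 : 2 * Real.pi * (r / lam) / Real.log x = 2 * Real.pi * r / (lam * Real.log x) := by
    rw [← mul_div_assoc, div_div]
  rw [e1] at hcon
  have h4 := hs s' hs0 hs1 hs2 hne (hcon.trans h1)
  rcases le_or_gt 0 (s'.re - 1 / 2) with h5 | h5
  · rw [abs_of_nonneg h5] at h4
    linarith
  · rw [abs_of_neg h5] at h4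
    linarith

/-- isolation in a box -/
def Qb (F : ℂ → ℂ) (r lam : ℝ) (s : ℂ) : Prop :=
  s.re = 1 / 2 ∧ mult F s = 1 ∧ ∀ s' : ℂ, F s' = 0 → 0 < s'.re → s'.re < 1 → s' ≠ s →
    |s'.im - s.im| ≤ 2 * Real.pi * r / (lam * Real.log s.im) →
      4 * Real.pi / 5 / (lam * Real.log s.im) < |s'.re - 1 / 2|

theorem iso_win_box {F : ℂ → ℂ} (hF : GoodL F) : ∃ C : ℝ, 0 < C ∧ ∀ T : ℝ, 10 ≤ T →
    ∀ A B : ℝ, T + 1 ≤ A → A ≤ B → B ≤ 2 * T - 1 → ∀ r lam : ℝ, 0 ≤ r → 0 < lam →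
      2 * Real.pi * r / (lam * Real.log T) ≤ 1 →
      ((SI F A B (2 * Real.pi * r / (lam * Real.log T))
        (4 * Real.pi / 5 / (lam * Real.log T))).card : ℝ) ≤
        PQ F (Qb F r lam) A B + C * Real.log T := by
  obtain ⟨C, hC, h⟩ := iso_gen hF
  refine ⟨C, hC, fun T hT A B hA hAB hB r lam hr hlam hρ => ?_⟩
  refine h T hT A B hA hAB hB _ _ hρ _ fun x hx hm hs => ?_
  have him : (1 / 2 + I * (x : ℂ)).im = x := by simp
  refine ⟨by simp, hm, fun s' hs0 hs1 hs2 hne hd => ?_⟩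
  rw [him] at hd ⊢
  have hpi := Real.pi_pos
  have h1 := rad_le (r := 2 * Real.pi * r) (lam := lam) hT hx (by positivity) hlam
  have h2 := rad_le (r := 4 * Real.pi / 5) (lam := lam) hT hx (by positivity) hlam
  exact h2.trans_lt (hs s' hs0 hs1 hs2 hne (hd.trans h1))

/-- the conclusion in a window -/
def Con (F : ℂ → ℂ) (lam r0 ε A B : ℝ) : Prop :=
  (3 - 2 * cf lam - ε) * (NN F A B : ℝ) ≤ PQ F (Qord F (1 / 3 / lam)) A B ∧
  ((5 - 3 * cf lam) / 2 - ε) * (NN F A B : ℝ) ≤ PQ F (Qord F (1 / 6 / lam)) A B ∧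
  (1 - (cf lam - 1) / KK r0 ^ 2 - ε) * (NN F A B : ℝ) ≤ PQ F (Qb F r0 lam) A B

lemma K_facts {r : ℝ} (h0 : 0 ≤ r) (h1 : r ≤ 1 / 3) : 0.678 ≤ KK r ^ 2 ∧ KK r ^ 2 ≤ 1 := by
  have hK1 : 0.824 ≤ KK r := KK_third h0 h1
  have hK2 : KK r ≤ 1 := KK_le_one _
  constructor
  · have : (0.824 : ℝ) ^ 2 ≤ KK r ^ 2 := pow_le_pow_left₀ (by norm_num) hK1 2
    norm_num at this ⊢
    linarith
  · have h2 : 0 ≤ KK r := le_trans (by norm_num) hK1
    exact pow_le_one₀ h2 hK2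

lemma q_ge {e K2 : ℝ} (he1 : e ≤ 1 / 1000) (hK : 0.678 ≤ K2) : 0.67 ≤ (1 - e) * K2 := by
  have h1 : (1 - 1 / 1000) * K2 ≤ (1 - e) * K2 :=
    mul_le_mul_of_nonneg_right (by linarith) (le_trans (by norm_num) hK)
  norm_num at hK h1 ⊢
  linarith

theorem ord_part {F : ℂ → ℂ} (hF : GoodL F) {A B Λ ρ ρ' h q : ℝ} (hU : 1 ≤ A) (hρ0 : 0 ≤ ρ)
    (hρρ' : 2 * ρ' = ρ) (hh0 : 0 ≤ h) (hq0 : 0.67 ≤ q)
    (hk1 : ∀ x y : ℝ, |x - y| ≤ ρ → q ≤ (phi Λ ((x : ℂ) - y)).re ^ 2)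
    (hk2 : ∀ (x : ℝ) (w : ℂ), |w.re - x| ≤ ρ → 0 < w.im → w.im ≤ h →
      q * ((phi Λ (w - conj w)).re + 1) ≤ 4 * (phi Λ (w - x)).re ^ 2) :
    3 * (NN F A B : ℝ) - 2 * QQ F Λ A B ≤ (SI F A B ρ (1 / 2)).card ∧
    5 / 2 * (NN F A B : ℝ) - 3 / 2 * QQ F Λ A B ≤ (SI F A B ρ' (1 / 2)).card := by
  have hq00 : 0 ≤ q := le_trans (by norm_num) hq0
  have core := core_ineq (U2 := B) hF hU Λ ρ h q hρ0 hh0 hq00 hk1 hk2
  have s1 := core (fun _ _ => 0) (by
    intro v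
    simp only [zero_mul, Finset.sum_const_zero]
    exact Finset.sum_nonneg fun x _ => by positivity)
  rw [YT_zero] at s1
  have hRs : 2 * (NR F A B : ℝ) + Ns F A B ≤ NN F A B := by
    have h1 := NR_split hF (b := B) hU
    exact_mod_cast h1
  have his : ((SI F A B ρ h).card : ℝ) ≤ Ns F A B := by
    rw [Ns_card hF hU]
    exact_mod_cast Finset.card_le_card (Finset.filter_subset _ _)
  obtain ⟨b1, -⟩ := bad_count hF hU (U2 := B) (ρ := ρ) (ρ' := ρ) hh0 le_rfl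
  obtain ⟨-, b2⟩ := bad_count hF hU (U2 := B) (ρ := ρ) (ρ' := ρ') hh0 (by linarith)
  have b2 := b2 hρρ'.le
  generalize (NN F A B : ℝ) = n at *
  generalize (Ns F A B : ℝ) = s at *
  generalize ((SI F A B ρ h).card : ℝ) = i at *
  generalize QQ F Λ A B = Q at *
  generalize (NR F A B : ℝ) = Rz at *
  have hsi : 0 ≤ s - i := by linarith
  have hW2 : q * (s - i) ≤ Q - 2 * n + s := by linarith
  have hq67 : 0.67 * (s - i) ≤ q * (s - i) := mul_le_mul_of_nonneg_right hq0 hsi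
  norm_num at hq67
  constructor <;> linarith

theorem box_part {F : ℂ → ℂ} (hF : GoodL F) {A B Λ ρ h q : ℝ} (hU : 1 ≤ A) (hρ0 : 0 ≤ ρ)
    (hh0 : 0 ≤ h) (hq0 : 0 ≤ q) (hq1 : q ≤ 1)
    (hk1 : ∀ x y : ℝ, |x - y| ≤ ρ → q ≤ (phi Λ ((x : ℂ) - y)).re ^ 2)
    (hk2 : ∀ (x : ℝ) (w : ℂ), |w.re - x| ≤ ρ → 0 < w.im → w.im ≤ h →
      q * ((phi Λ (w - conj w)).re + 1) ≤ 4 * (phi Λ (w - x)).re ^ 2) :
    (1 + q) * (NN F A B : ℝ) - QQ F Λ A B ≤ q * (SI F A B ρ h).card := by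
  have core := core_ineq (U2 := B) hF hU Λ ρ h q hρ0 hh0 hq0 hk1 hk2
  have s1 := core (fun _ _ => 0) (by
    intro v
    simp only [zero_mul, Finset.sum_const_zero]
    exact Finset.sum_nonneg fun x _ => by positivity)
  rw [YT_zero] at s1
  have hsn : (Ns F A B : ℝ) ≤ NN F A B := by exact_mod_cast Ns_le_NN hF hU
  have t2 : (1 - q) * (Ns F A B : ℝ) ≤ (1 - q) * (NN F A B : ℝ) :=
    mul_le_mul_of_nonneg_left hsn (by linarith)
  linarith

lemma box_arith {c ε' e K2 n Q j : ℝ} (hc : 0 ≤ c) (hε' : 0 < ε') (he0 : 0 < e)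
    (he1 : e ≤ 1 / 1000) (he2 : e * (c + 1) ≤ ε') (hK1 : 0.678 ≤ K2) (hn : 0 ≤ n)
    (hQ : Q ≤ (c + ε') * n) (h : (1 + (1 - e) * K2) * n - Q ≤ ((1 - e) * K2) * j) :
    (1 - (c - 1) / K2 - 4 * ε') * n + ε' * n ≤ j := by
  have hq := q_ge he1 hK1
  set q0 : ℝ := (1 - e) * K2 with hq0
  have hq03 : 0 < q0 := lt_of_lt_of_le (by norm_num) hq
  have hK20 : K2 ≠ 0 := (lt_of_lt_of_le (by norm_num) hK1).ne'
  have t4 : (1 + q0 - c - ε') * n ≤ q0 * j := by
    have : (1 + q0 - c - ε') * n = (1 + q0) * n - (c + ε') * n := by ring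
    rw [this]; linarith
  have t5 : q0 * ((1 - (c - 1) / K2 - 4 * ε') + ε') ≤ 1 + q0 - c - ε' := by
    have e5 : q0 * ((1 - (c - 1) / K2 - 4 * ε') + ε') =
        q0 - ((c - 1) - (e * (c + 1) - 2 * e)) - 3 * (q0 * ε') := by
      rw [hq0]
      field_simp
      ring
    rw [e5]
    have h6 : 0.67 * ε' ≤ q0 * ε' := mul_le_mul_of_nonneg_right hq hε'.le
    norm_num at h6
    linarith
  have t6 : q0 * (((1 - (c - 1) / K2 - 4 * ε') + ε') * n) ≤ q0 * j := by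
    calc q0 * (((1 - (c - 1) / K2 - 4 * ε') + ε') * n) =
          (q0 * ((1 - (c - 1) / K2 - 4 * ε') + ε')) * n := by ring
      _ ≤ (1 + q0 - c - ε') * n := mul_le_mul_of_nonneg_right t5 hn
      _ ≤ _ := t4
  have t7 := le_of_mul_le_mul_left t6 hq03
  rw [add_mul] at t7
  exact t7

theorem loc_main {F : ℂ → ℂ} (hF : GoodL F) (lam r0 : ℝ) (hlam0 : 0 < lam) (hlam1 : lam ≤ 1)
    (hr00 : 0 ≤ r0) (hr01 : r0 ≤ 1 / 3) :
    ∃ a : ℕ → ℂ, (∀ n, ‖a n‖ ≤ ArithmeticFunction.vonMangoldt n) ∧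
    ∀ r κ ε : ℝ, 0 < r → r < 1 → 3 / 8 * lam < r → 0 < κ → 0 < ε →
    ∃ θ : ℝ, 0 < θ ∧ θ ≤ 1 ∧ ∃ T0 : ℝ, 10 ≤ T0 ∧ ∀ T : ℝ, T0 ≤ T →
    ∀ A B : ℝ, T + 1 ≤ A → B ≤ 2 * T - 1 → T ^ r ≤ B - A →
      (∀ s : ℂ, s ∈ zset F A B →
        (s.im ≤ A + 2 * Real.log T ∨ B - 2 * Real.log T ≤ s.im) → s.re ≤ 11 / 16) →
      ∀ σ w : ℝ, ∀ X : ℕ, 0 < σ → 0 ≤ w → w ≤ θ / 4 * (B - A) →
      Real.sqrt 2 * Real.exp (-w ^ 2 / (4 * σ ^ 2)) ≤ θ / (1 + θ) →
      (lam + κ) * Real.log T ≤ Real.log (X + 1) →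
      ∫ x in (A - w)..(B + w), H370.AS.QE (RS (Real.sqrt 2)) a (lam * Real.log T) X σ x ≤ B - A →
      Con F lam r0 ε A B := by
  classical
  have hs2 : (0 : ℝ) < Real.sqrt 2 := by positivity
  have hR := H793SI.convS (Real.sqrt 2) hs2 le_rfl
  have hW := H255SI.winS (Real.sqrt 2) hs2 le_rfl
  have hK := H218SI3.kSqS (Real.sqrt 2) hs2 le_rfl
  have hc0 := cf_nonneg lam hlam0
  obtain ⟨a, ha, hP⟩ := H370.AS.pair_mod hR hF
  refine ⟨a, ha, fun r κ ε hr hr1 hgap hκ hε => ?_⟩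
  set c : ℝ := cf lam with hc
  set ε' : ℝ := ε / 4 with hε'
  have hε'0 : 0 < ε' := by positivity
  set η : ℝ := ε' / (7 * (c + ε') + 1) with hη
  have hη0 : 0 < η := by positivity
  have hηe : η * (7 * (c + ε') + 1) = ε' := by rw [hη]; field_simp
  obtain ⟨θ, hθ0, hθ1, T0, hT0, hP⟩ := hP r lam κ η hr hr1 hlam0 hlam1 hgap hκ hη0
  obtain ⟨Ca, hCa, hiso⟩ := iso_win hF
  obtain ⟨Cb, hCb, hisob⟩ := iso_win_box hF
  set C : ℝ := Ca + Cb with hCdef
  have hC : 0 < C := by positivity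
  set e : ℝ := min (1 / 1000) (ε' / (c + 1)) with he
  have he0 : 0 < e := lt_min (by norm_num) (by positivity)
  have he1 : e ≤ 1 / 1000 := min_le_left _ _
  have he2 : e * (c + 1) ≤ ε' := by
    have h1 : e ≤ ε' / (c + 1) := min_le_right _ _
    rwa [le_div_iff₀ (by positivity)] at h1
  obtain ⟨T3, hT3, hKB⟩ := kernel_bounds (r := 1 / 3) (e1 := e) (by norm_num) le_rfl
    he0 (by linarith)
  obtain ⟨T5, hT5, hKB0⟩ := kernel_bounds (r := r0) (e1 := e) hr00 hr01 he0 (by linarith)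
  -- eventual facts
  have ev1 : ∀ᶠ T : ℝ in atTop, max T3 T5 ≤ T ^ lam :=
    (tendsto_rpow_atTop hlam0).eventually_ge_atTop _
  have ev2 : ∀ᶠ T : ℝ in atTop, 2 * Real.pi * C * (c + ε') / (ε' * η) ≤ T ^ r :=
    (tendsto_rpow_atTop hr).eventually_ge_atTop _
  have ev3 : ∀ᶠ T : ℝ in atTop, 3 / lam ≤ Real.log T :=
    Real.tendsto_log_atTop.eventually_ge_atTop _
  obtain ⟨T4, hT4⟩ := ((ev1.and ev2).and ev3).exists_forall_of_atTop
  refine ⟨θ, hθ0, hθ1, max T0 T4, hT0.trans (le_max_left _ _),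
    fun T hT A B hA hB hAB hz σ w X hσ hw0 hw1 hmass hX hQE => ?_⟩
  have hTT : T0 ≤ T := (le_max_left _ _).trans hT
  obtain ⟨⟨e1, e2⟩, e3⟩ := hT4 T ((le_max_right _ _).trans hT)
  obtain ⟨hNN, hQQ⟩ := hP T hTT A B hA hB hAB hz σ w X hσ hw0 hw1 hmass hX hQE
  have hT10 : 10 ≤ T := hT0.trans hTT
  have hU : 1 ≤ A := by linarith
  have hL : 0 < Real.log T := Real.log_pos (by linarith)
  have hTr : 0 < T ^ r := Real.rpow_pos_of_pos (by linarith) r
  have hH : 0 < B - A := by linarith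
  have hpi := Real.pi_pos
  have hpi2 : Real.pi < 3.15 := Real.pi_lt_d2
  rw [← H228SI.qqJJ (gS (Real.sqrt 2)) _ hW hR hK F hF A B hU (lam * Real.log T), QQG_eq] at hQQ
  change QQ F (lam * Real.log T) A B ≤ (B - A) * Real.log T / (2 * Real.pi) * (c + η) at hQQ
  set M : ℝ := (B - A) * Real.log T / (2 * Real.pi) with hM
  have hM0 : 0 < M := by positivity
  have hHL : (B - A) * Real.log T = 2 * Real.pi * M := by rw [hM]; field_simp
  rw [hHL] at hNN
  have hηM : η * (2 * Real.pi * M) ≤ (7 * η) * M := by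
    have : 2 * Real.pi ≤ 7 := by linarith
    calc η * (2 * Real.pi * M) = (η * M) * (2 * Real.pi) := by ring
      _ ≤ (η * M) * 7 := by
        apply mul_le_mul_of_nonneg_left this (by positivity)
      _ = (7 * η) * M := by ring
  obtain ⟨hNNl, hNNu⟩ := abs_le.mp hNN
  have hkey : M * (c + η) ≤ (c + ε') * (NN F A B : ℝ) := by
    have h1 : M * (1 - 7 * η) ≤ NN F A B := by linarith
    calc M * (c + η) = (c + ε') * (M * (1 - 7 * η)) := by
          have : c + η = (c + ε') * (1 - 7 * η) := by linear_combination hηe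
          rw [this]; ring
      _ ≤ _ := by gcongr
  -- the end zeros
  have hClog : C * Real.log T ≤ ε' * (NN F A B : ℝ) := by
    have h1 : 2 * Real.pi * C * (c + ε') ≤ (B - A) * (ε' * η) := by
      rw [div_le_iff₀ (by positivity)] at e2
      refine e2.trans ?_
      exact mul_le_mul_of_nonneg_right hAB (by positivity)
    have h2 : C * Real.log T * (c + ε') ≤ M * η * ε' := by
      have h3 : M * η * ε' = ((B - A) * (ε' * η)) * (Real.log T / (2 * Real.pi)) := by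
        rw [hM]; ring
      rw [h3]
      calc C * Real.log T * (c + ε') =
            (2 * Real.pi * C * (c + ε')) * (Real.log T / (2 * Real.pi)) := by field_simp
        _ ≤ _ := mul_le_mul_of_nonneg_right h1 (by positivity)
    have h4 : M * η * ε' ≤ (ε' * (NN F A B : ℝ)) * (c + ε') := by
      have h5 : M * η ≤ (c + ε') * (NN F A B : ℝ) := by
        refine le_trans ?_ hkey
        have : 0 ≤ M * c := mul_nonneg hM0.le hc0
        linarith
      calc M * η * ε' ≤ ((c + ε') * (NN F A B : ℝ)) * ε' :=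
            mul_le_mul_of_nonneg_right h5 hε'0.le
        _ = _ := by ring
    exact le_of_mul_le_mul_right (h2.trans h4) (by positivity)
  -- the kernel
  have hlogL : Real.log (T ^ lam) = lam * Real.log T := Real.log_rpow (by linarith) lam
  have hΛ0 : 0 < lam * Real.log T := by positivity
  obtain ⟨hk1, hk2⟩ := hKB (T ^ lam) ((le_max_left _ _).trans e1) (lam * Real.log T) hΛ0.le
    hlogL.ge
  obtain ⟨hk3, hk4⟩ := hKB0 (T ^ lam) ((le_max_right _ _).trans e1) (lam * Real.log T) hΛ0.le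
    hlogL.ge
  rw [hlogL] at hk1 hk2 hk3 hk4
  set ρ := 2 * Real.pi * (1 / 3) / (lam * Real.log T) with hρ
  set ρ' := 2 * Real.pi * (1 / 6) / (lam * Real.log T) with hρ'
  set h := 4 * Real.pi / 5 / (lam * Real.log T) with hh
  have hΛ3 : 3 ≤ lam * Real.log T := by
    rw [div_le_iff₀ hlam0] at e3
    linarith
  have hCle : Ca * Real.log T ≤ C * Real.log T := by
    apply mul_le_mul_of_nonneg_right _ hL.le
    rw [hCdef]; linarith
  have hCle2 : Cb * Real.log T ≤ C * Real.log T := by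
    apply mul_le_mul_of_nonneg_right _ hL.le
    rw [hCdef]; linarith
  have hρρ' : 2 * ρ' = ρ := by rw [hρ, hρ']; ring
  have hρ0 : 0 ≤ ρ := by rw [hρ]; positivity
  have hρ1 : ρ ≤ 1 := by
    rw [hρ, div_le_one hΛ0]
    linarith
  have hh0 : 0 ≤ h := by rw [hh]; positivity
  obtain ⟨hK1, -⟩ := K_facts (r := 1 / 3) (by norm_num) le_rfl
  obtain ⟨o1, o2⟩ := ord_part (B := B) hF hU hρ0 hρρ' hh0 (q_ge he1 hK1) hk1 hk2
  obtain ⟨hK01, hK02⟩ := K_facts hr00 hr01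
  have hρ01 : 2 * Real.pi * r0 / (lam * Real.log T) ≤ ρ := by
    rw [hρ]
    gcongr
  have hρ00 : 0 ≤ 2 * Real.pi * r0 / (lam * Real.log T) := by positivity
  have hq00 : 0 ≤ (1 - e) * KK r0 ^ 2 := le_trans (by norm_num) (q_ge he1 hK01)
  have hq01 : (1 - e) * KK r0 ^ 2 ≤ 1 := mul_le_one₀ (by linarith only [he0]) (sq_nonneg _) hK02
  have o3 := box_part (B := B) hF hU hρ00 hh0 hq00 hq01 hk3 hk4
  have hQn : QQ F (lam * Real.log T) A B ≤ (c + ε') * (NN F A B : ℝ) := hQQ.trans hkey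
  have i1 := hiso T hT10 A B hA (by linarith only [hH]) hB (1 / 3) lam (by norm_num) hlam0 hρ1
  have i2 := hiso T hT10 A B hA (by linarith only [hH]) hB (1 / 6) lam (by norm_num) hlam0
    (by rw [← hρ']; linarith only [hρρ', hρ1, hρ0])
  have i3 := hisob T hT10 A B hA (by linarith only [hH]) hB r0 lam hr00 hlam0 (hρ01.trans hρ1)
  rw [← hρ] at i1
  rw [← hρ'] at i2
  rw [← hh] at i3
  have hn0 : (0 : ℝ) ≤ NN F A B := Nat.cast_nonneg _
  have o4 := box_arith hc0 hε'0 he0 he1 he2 hK01 hn0 hQn o3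
  have h2e : 4 * ε' = ε := by rw [hε']; ring
  rw [h2e] at o4
  have hεn : 0 ≤ ε' * (NN F A B : ℝ) := mul_nonneg hε'0.le hn0
  have h4e : (c + ε') * (NN F A B : ℝ) = c * NN F A B + ε' * NN F A B := by ring
  rw [h4e] at hQn
  refine ⟨?_, ?_, ?_⟩
  · have h3 : (3 - 2 * c - ε) * (NN F A B : ℝ) =
        3 * NN F A B - 2 * (c * NN F A B) - 4 * (ε' * NN F A B) := by
      rw [← h2e]; ring
    rw [h3]
    linarith only [hQn, o1, i1, hClog, hCle, hεn]
  · have h3 : ((5 - 3 * c) / 2 - ε) * (NN F A B : ℝ) =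
        5 / 2 * NN F A B - 3 / 2 * (c * NN F A B) - 4 * (ε' * NN F A B) := by
      rw [← h2e]; ring
    rw [h3]
    linarith only [hQn, o2, i2, hClog, hCle, hεn]
  · linarith only [o4, i3, hClog, hCle2]

end H370.A5
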